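import Pool.Agent.H89.FM.Targets2

set_option autoImplicit false

open Pool.Agent.H31.CN Pool.Agent.H89.FM

namespace Pool.Agent.H48.FM.CLF

theorem mem_iff {f : ℕ} {u v : ℤ × ℤ} {i : ℕ} (hi : Nat.Coprime f i) :
    v ∈ Lw f u ↔ ((i : ZMod f) * (u.1 : ZMod f)) * (v.2 : ZMod f) -
      ((i : ZMod f) * (u.2 : ZMod f)) * (v.1 : ZMod f) = 0 := by
  have h1 : v ∈ Lw f u ↔ (f : ℤ) ∣ u.1 * v.2 - u.2 * v.1 := Iff.rfl
  have hu : IsUnit (i : ZMod f) := (ZMod.isUnit_iff_coprime i f).2 hi.symm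
  rw [h1, ← ZMod.intCast_zmod_eq_zero_iff_dvd]
  have e : ((i : ZMod f) * (u.1 : ZMod f)) * (v.2 : ZMod f) -
      ((i : ZMod f) * (u.2 : ZMod f)) * (v.1 : ZMod f) =
      (i : ZMod f) * ((u.1 * v.2 - u.2 * v.1 : ℤ) : ZMod f) := by
    push_cast
    ring
  rw [e, IsUnit.mul_right_eq_zero hu]

theorem pf_CLF (_hFLS : T_FLS) (hGEN : T_GEN) : T_CLF := by
  classical
  intro f hf
  have hf0 : f ≠ 0 := hf.ne_zero
  have : NeZero f := ⟨hf0⟩
  have hex : ∀ L : AddSubgroup (ℤ × ℤ), ∃ u : ℤ × ℤ, L ∈ Ls f →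
      Nat.Coprime (Int.gcd u.1 u.2) f ∧ L = Lw f u := by
    intro L
    by_cases hL : L ∈ Ls f
    · obtain ⟨u, hu⟩ := hGEN.2 f L hf hL
      exact ⟨u, fun _ => hu⟩
    · exact ⟨0, fun h => absurd h hL⟩
  choose u hu using hex
  have hcard := Finset.card_le_card_of_injOn
    (s := (Ls f) ×ˢ ((Finset.range f).filter fun i => f.Coprime i))
    (t := (Finset.univ : Finset (ZMod f × ZMod f)))
    (fun x => ((x.2 : ZMod f) * ((u x.1).1 : ZMod f), (x.2 : ZMod f) * ((u x.1).2 : ZMod f)))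
    (fun x _ => Finset.mem_coe.2 (Finset.mem_univ _)) (by
      rintro ⟨L, i⟩ hx ⟨L', i'⟩ hy hxy
      rw [Finset.mem_coe, Finset.mem_product, Finset.mem_filter, Finset.mem_range] at hx hy
      obtain ⟨hL, hi, hic⟩ := hx
      obtain ⟨hL', hi', hic'⟩ := hy
      have e1 : (i : ZMod f) * ((u L).1 : ZMod f) = (i' : ZMod f) * ((u L').1 : ZMod f) :=
        congrArg Prod.fst hxy
      have e2 : (i : ZMod f) * ((u L).2 : ZMod f) = (i' : ZMod f) * ((u L').2 : ZMod f) :=
        congrArg Prod.snd hxy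
      have hLL : L = L' := by
        rw [(hu L hL).2, (hu L' hL').2]
        ext v
        rw [mem_iff hic, mem_iff hic', e1, e2]
      subst hLL
      have hii : i = i' := by
        have d1 : (f : ℤ) ∣ ((i : ℤ) - i') * (u L).1 := by
          rw [← ZMod.intCast_zmod_eq_zero_iff_dvd]
          push_cast
          rw [sub_mul, e1, sub_self]
        have d2 : (f : ℤ) ∣ ((i : ℤ) - i') * (u L).2 := by
          rw [← ZMod.intCast_zmod_eq_zero_iff_dvd]
          push_cast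
          rw [sub_mul, e2, sub_self]
        have d3 : (f : ℤ) ∣ ((i : ℤ) - i') * (Int.gcd (u L).1 (u L).2 : ℤ) := by
          rw [Int.gcd_eq_gcd_ab, mul_add, ← mul_assoc, ← mul_assoc]
          exact dvd_add (d1.mul_right _) (d2.mul_right _)
        have hcop : IsCoprime (f : ℤ) (Int.gcd (u L).1 (u L).2 : ℤ) :=
          Nat.isCoprime_iff_coprime.2 (hu L hL).1.symm
        have d4 : (f : ℤ) ∣ (i : ℤ) - i' := hcop.dvd_of_dvd_mul_right d3
        have h5 : (i : ℤ) - i' = 0 := by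
          apply Int.eq_zero_of_abs_lt_dvd d4
          rw [abs_lt]
          constructor <;> omega
        omega
      rw [hii])
  rw [Finset.card_product, Finset.card_univ, Fintype.card_prod, ZMod.card] at hcard
  rw [Nat.totient, sq]
  exact hcard

end Pool.Agent.H48.FM.CLF
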