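import Pool.Agent.H89.FM.Targets2

set_option autoImplicit false

open Pool.Agent.H31.CN Pool.Agent.H89.FM

namespace Pool.Agent.H48.FM

theorem smul_mem_of_index {n : ℕ} {L : AddSubgroup (ℤ × ℤ)} (h : L.index = n) (v : ℤ × ℤ) :
    (n : ℤ) • v ∈ L := by
  have h1 : Nat.card ((ℤ × ℤ) ⧸ L) • (QuotientAddGroup.mk v : (ℤ × ℤ) ⧸ L) = 0 :=
    card_nsmul_eq_zero'
  have h2 : Nat.card ((ℤ × ℤ) ⧸ L) = n := h
  rw [h2] at h1
  have h3 : (QuotientAddGroup.mk ((n : ℤ) • v) : (ℤ × ℤ) ⧸ L) = 0 := by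
    rw [← h1, QuotientAddGroup.mk_zsmul, natCast_zsmul]
  exact (QuotientAddGroup.eq_zero_iff _).1 h3

/-- reduction modulo `n` -/
def redn (n : ℕ) : ℤ × ℤ →+ ZMod n × ZMod n :=
  (Int.castAddHom (ZMod n)).prodMap (Int.castAddHom (ZMod n))

theorem ker_le {n : ℕ} {L : AddSubgroup (ℤ × ℤ)} (h : L.index = n) : (redn n).ker ≤ L := by
  intro v hv
  have h1 : redn n v = 0 := hv
  have h2 : ((v.1 : ℤ) : ZMod n) = 0 := congrArg Prod.fst h1
  have h3 : ((v.2 : ℤ) : ZMod n) = 0 := congrArg Prod.snd h1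
  obtain ⟨a, ha⟩ := (ZMod.intCast_zmod_eq_zero_iff_dvd _ _).1 h2
  obtain ⟨b, hb⟩ := (ZMod.intCast_zmod_eq_zero_iff_dvd _ _).1 h3
  have h4 : v = (n : ℤ) • ((a, b) : ℤ × ℤ) := by
    ext
    · rw [ha]
      simp
    · rw [hb]
      simp
  rw [h4]
  exact smul_mem_of_index h _

theorem finite_index {n : ℕ} (hn : 1 ≤ n) : {L : AddSubgroup (ℤ × ℤ) | L.index = n}.Finite := by
  have : NeZero n := ⟨by omega⟩
  refine Set.Finite.of_finite_image (f := fun L : AddSubgroup (ℤ × ℤ) => L.map (redn n)) (Set.toFinite _) ?_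
  intro L hL L' hL' h
  have h' : L.map (redn n) = L'.map (redn n) := h
  have e1 : (L.map (redn n)).comap (redn n) = L := AddSubgroup.comap_map_eq_self (ker_le hL)
  have e2 : (L'.map (redn n)).comap (redn n) = L' := AddSubgroup.comap_map_eq_self (ker_le hL')
  rw [← e1, h', e2]

theorem pf_FLS : T_FLS := by
  intro n L hn
  have h1 : L ∈ Ls n ↔ L.index = n := by
    unfold Ls
    rw [dif_pos (finite_index hn), Set.Finite.mem_toFinset]
    rfl
  exact ⟨h1, fun h v => smul_mem_of_index (h1.1 h) v⟩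

end Pool.Agent.H48.FM
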