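import Pool.Agent.H89.FM.Targets2

set_option autoImplicit false

open Pool.Agent.H31.CN Pool.Agent.H89.FM

namespace Pool.Agent.H48.FM.LSP

theorem mem_Lw {p : ℕ} {u v : ℤ × ℤ} : v ∈ Lw p u ↔ (p : ℤ) ∣ u.1 * v.2 - u.2 * v.1 := Iff.rfl

theorem pf_LSP (_hFLS : T_FLS) (hGEN : T_GEN) : T_LSP := by
  classical
  intro p hp
  have hp1 : 1 ≤ p := hp.one_lt.le
  have hpz : Prime (p : ℤ) := Nat.prime_iff_prime_int.1 hp
  have h10 : Lw p (1, 0) ∈ Ls p := hGEN.1 p (1, 0) hp1 (by simp)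
  have hx1 : ∀ x : ℕ, Lw p ((x : ℤ), 1) ∈ Ls p := fun x => hGEN.1 p _ hp1 (by simp)
  have hall : ∀ L ∈ Ls p, L = Lw p (1, 0) ∨ ∃ x : ℕ, x < p ∧ L = Lw p ((x : ℤ), 1) := by
    intro L hL
    obtain ⟨u, hu, rfl⟩ := hGEN.2 p L hp.squarefree hL
    have hnot : ¬ ((p : ℤ) ∣ u.1 ∧ (p : ℤ) ∣ u.2) := by
      rintro ⟨h1, h2⟩
      have h3 : (p : ℤ) ∣ Int.gcd u.1 u.2 := Int.dvd_coe_gcd h1 h2
      have h4 : p ∣ Int.gcd u.1 u.2 := by exact_mod_cast h3
      have h5 : p ∣ Nat.gcd (Int.gcd u.1 u.2) p := Nat.dvd_gcd h4 dvd_rfl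
      rw [hu] at h5
      exact hp.one_lt.ne' (Nat.dvd_one.1 h5)
    by_cases h2 : (p : ℤ) ∣ u.2
    · left
      ext v
      rw [mem_Lw, mem_Lw]
      have h1 : ¬ (p : ℤ) ∣ u.1 := fun h => hnot ⟨h, h2⟩
      constructor
      · intro h
        have h3 : (p : ℤ) ∣ u.1 * v.2 := by
          have h4 := dvd_add h (h2.mul_right v.1)
          rwa [sub_add_cancel] at h4
        have h5 := (hpz.dvd_or_dvd h3).resolve_left h1
        simpa using h5
      · intro h
        have h3 : (p : ℤ) ∣ v.2 := by simpa using h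
        exact dvd_sub (h3.mul_left _) (h2.mul_right _)
    · right
      have := Fact.mk hp
      have hu2 : ((u.2 : ℤ) : ZMod p) ≠ 0 := by
        intro h
        exact h2 ((ZMod.intCast_zmod_eq_zero_iff_dvd _ _).1 h)
      refine ⟨(((u.1 : ℤ) : ZMod p) * ((u.2 : ℤ) : ZMod p)⁻¹).val, ZMod.val_lt _, ?_⟩
      obtain ⟨x, hx⟩ : ∃ x : ℕ, x = (((u.1 : ℤ) : ZMod p) * ((u.2 : ℤ) : ZMod p)⁻¹).val := ⟨_, rfl⟩
      rw [← hx]
      have hcon : (p : ℤ) ∣ u.1 - x * u.2 := by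
        rw [← ZMod.intCast_zmod_eq_zero_iff_dvd]
        push_cast
        rw [hx, ZMod.natCast_zmod_val, mul_assoc, inv_mul_cancel₀ hu2, mul_one, sub_self]
      ext v
      rw [mem_Lw, mem_Lw]
      have e : u.1 * v.2 - u.2 * v.1 = (u.1 - x * u.2) * v.2 + u.2 * (x * v.2 - 1 * v.1) := by ring
      constructor
      · intro h
        rw [e] at h
        have h3 := (dvd_add_right (hcon.mul_right v.2)).1 h
        exact (hpz.dvd_or_dvd h3).resolve_left h2
      · intro h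
        rw [e]
        exact dvd_add (hcon.mul_right _) (h.mul_left _)
  refine ⟨?_, h10, hx1, hall⟩
  have hset : Ls p = insert (Lw p (1, 0)) ((Finset.range p).image fun x : ℕ => Lw p ((x : ℤ), 1)) := by
    ext L
    rw [Finset.mem_insert, Finset.mem_image]
    constructor
    · intro h
      rcases hall L h with h1 | ⟨x, hx, h1⟩
      · exact Or.inl h1
      · exact Or.inr ⟨x, Finset.mem_range.2 hx, h1.symm⟩
    · rintro (rfl | ⟨x, -, rfl⟩)
      · exact h10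
      · exact hx1 x
  rw [hset, Finset.card_insert_of_notMem, Finset.card_image_of_injOn, Finset.card_range]
  · intro x hx y hy hxy
    have hx' : x < p := Finset.mem_range.1 hx
    have hy' : y < p := Finset.mem_range.1 hy
    have h1 : (((x : ℤ), 1) : ℤ × ℤ) ∈ Lw p ((x : ℤ), 1) := by
      rw [mem_Lw]
      simp
    have h2 : Lw p ((x : ℤ), 1) = Lw p ((y : ℤ), 1) := hxy
    rw [h2, mem_Lw] at h1
    have h3 : (p : ℤ) ∣ (y : ℤ) - x := by simpa using h1
    have h4 : (y : ℤ) - x = 0 := by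
      apply Int.eq_zero_of_abs_lt_dvd h3
      rw [abs_lt]
      constructor <;> omega
    omega
  · intro h
    rw [Finset.mem_image] at h
    obtain ⟨x, -, hx⟩ := h
    have h1 : ((1, 0) : ℤ × ℤ) ∈ Lw p (1, 0) := by
      rw [mem_Lw]
      simp
    rw [← hx, mem_Lw] at h1
    have h3 : (p : ℤ) ∣ 1 := by simpa using h1
    exact hpz.not_dvd_one h3

end Pool.Agent.H48.FM.LSP
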