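import Pool.Agent.H89.FM.Targets2

set_option autoImplicit false

open Pool.Agent.H31.CN Pool.Agent.H89.FM

namespace Pool.Agent.H48.FM.MIN

theorem nr_le {ρ : ℝ} (hρ : 0 < ρ) {R : ℝ} {v : ℤ × ℤ} (h : nr ρ v ≤ R) :
    (v.1 : ℝ) ^ 2 ≤ R * ρ ∧ (v.2 : ℝ) ^ 2 ≤ R / ρ := by
  unfold nr at h
  have h1 : 0 ≤ (v.1 : ℝ) ^ 2 / ρ := by positivity
  have h2 : 0 ≤ ρ * (v.2 : ℝ) ^ 2 := by positivity
  constructor
  · rw [← div_le_iff₀ hρ]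
    linarith
  · rw [le_div_iff₀ hρ]
    linarith

theorem finite_nr {ρ : ℝ} (hρ : 0 < ρ) (R : ℝ) : {v : ℤ × ℤ | nr ρ v ≤ R}.Finite := by
  obtain ⟨K, hK⟩ := exists_nat_ge (max (R * ρ) (R / ρ))
  refine (Set.finite_Icc ((-(K : ℤ), -(K : ℤ)) : ℤ × ℤ) ((K : ℤ), (K : ℤ))).subset ?_
  intro v hv
  obtain ⟨h1, h2⟩ := nr_le hρ hv
  have h3 : (v.1 : ℝ) ^ 2 ≤ K := h1.trans ((le_max_left _ _).trans hK)
  have h4 : (v.2 : ℝ) ^ 2 ≤ K := h2.trans ((le_max_right _ _).trans hK)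
  have h5 : v.1 ^ 2 ≤ (K : ℤ) := by exact_mod_cast h3
  have h6 : v.2 ^ 2 ≤ (K : ℤ) := by exact_mod_cast h4
  have key : ∀ a : ℤ, a ^ 2 ≤ (K : ℤ) → -(K : ℤ) ≤ a ∧ a ≤ (K : ℤ) := by
    intro a ha
    have h7 : |a| ≤ a ^ 2 := by
      rcases eq_or_ne a 0 with rfl | h
      · simp
      · have h8 : 1 ≤ |a| := Int.one_le_abs h
        rw [← sq_abs]
        nlinarith
    exact abs_le.1 (h7.trans ha)
  exact ⟨⟨(key _ h5).1, (key _ h6).1⟩, ⟨(key _ h5).2, (key _ h6).2⟩⟩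

theorem exists_short {ρ : ℝ} (hρ : 0 < ρ) {n : ℕ} (hn : 1 ≤ n)
    {L : AddSubgroup (ℤ × ℤ)} (hL : L.index = n) : ∃ v ∈ L, v ≠ 0 ∧ nr ρ v ≤ 2 * n := by
  have hn' : (0 : ℝ) < n := by exact_mod_cast hn
  have hcard : Nat.card ((ℤ × ℤ) ⧸ L) = n := hL
  have hfin : Finite ((ℤ × ℤ) ⧸ L) := Nat.finite_of_card_ne_zero (by omega)
  have hft := Fintype.ofFinite ((ℤ × ℤ) ⧸ L)
  obtain ⟨A, hA⟩ : ∃ A : ℕ, A = ⌊Real.sqrt (n * ρ)⌋₊ := ⟨_, rfl⟩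
  obtain ⟨B, hB⟩ : ∃ B : ℕ, B = ⌊Real.sqrt (n / ρ)⌋₊ := ⟨_, rfl⟩
  have hA1 : Real.sqrt (n * ρ) < A + 1 := by
    rw [hA]
    exact Nat.lt_floor_add_one _
  have hB1 : Real.sqrt (n / ρ) < B + 1 := by
    rw [hB]
    exact Nat.lt_floor_add_one _
  have hA2 : (A : ℝ) ^ 2 ≤ n * ρ := by
    have h1 : (A : ℝ) ≤ Real.sqrt (n * ρ) := by
      rw [hA]
      exact Nat.floor_le (Real.sqrt_nonneg _)
    calc (A : ℝ) ^ 2 ≤ Real.sqrt (n * ρ) ^ 2 := pow_le_pow_left₀ (Nat.cast_nonneg _) h1 2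
      _ = n * ρ := Real.sq_sqrt (by positivity)
  have hB2 : (B : ℝ) ^ 2 ≤ n / ρ := by
    have h1 : (B : ℝ) ≤ Real.sqrt (n / ρ) := by
      rw [hB]
      exact Nat.floor_le (Real.sqrt_nonneg _)
    calc (B : ℝ) ^ 2 ≤ Real.sqrt (n / ρ) ^ 2 := pow_le_pow_left₀ (Nat.cast_nonneg _) h1 2
      _ = n / ρ := Real.sq_sqrt (by positivity)
  have hprod : (n : ℝ) < (A + 1) * (B + 1) := by
    have h1 : Real.sqrt (n * ρ) * Real.sqrt (n / ρ) = n := by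
      rw [← Real.sqrt_mul (by positivity)]
      have h2 : (n : ℝ) * ρ * (n / ρ) = (n : ℝ) ^ 2 := by
        field_simp
      rw [h2, Real.sqrt_sq hn'.le]
    calc (n : ℝ) = Real.sqrt (n * ρ) * Real.sqrt (n / ρ) := h1.symm
      _ < (A + 1) * (B + 1) := by
        apply mul_lt_mul hA1 hB1.le
        · exact Real.sqrt_pos.2 (by positivity)
        · positivity
  have hprod' : n < (A + 1) * (B + 1) := by exact_mod_cast hprod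
  obtain ⟨x, y, hxy, hf⟩ := Fintype.exists_ne_map_eq_of_card_lt
    (fun x : Fin (A + 1) × Fin (B + 1) =>
      (QuotientAddGroup.mk (((x.1 : ℕ) : ℤ), ((x.2 : ℕ) : ℤ)) : (ℤ × ℤ) ⧸ L)) (by
    rw [Fintype.card_prod, Fintype.card_fin, Fintype.card_fin, ← Nat.card_eq_fintype_card, hcard]
    exact hprod')
  have hmem : -(((x.1 : ℕ) : ℤ), ((x.2 : ℕ) : ℤ)) + (((y.1 : ℕ) : ℤ), ((y.2 : ℕ) : ℤ)) ∈ L :=
    QuotientAddGroup.eq.1 hf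
  have habs : ∀ (K : ℕ) (a b : Fin (K + 1)), ((-((a : ℕ) : ℤ) + ((b : ℕ) : ℤ) : ℤ) : ℝ) ^ 2 ≤
      (K : ℝ) ^ 2 := by
    intro K a b
    have h1 := a.2
    have h2 := b.2
    have h3 : |(-((a : ℕ) : ℤ) + ((b : ℕ) : ℤ) : ℤ)| ≤ (K : ℤ) := by
      rw [abs_le]
      constructor <;> omega
    have h4 : |((-((a : ℕ) : ℤ) + ((b : ℕ) : ℤ) : ℤ) : ℝ)| ≤ (K : ℝ) := by exact_mod_cast h3
    rw [← sq_abs]
    exact pow_le_pow_left₀ (abs_nonneg _) h4 2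
  refine ⟨_, hmem, ?_, ?_⟩
  · intro h
    apply hxy
    have h1 := congrArg Prod.fst h
    have h2 := congrArg Prod.snd h
    have h3 : -((x.1 : ℕ) : ℤ) + ((y.1 : ℕ) : ℤ) = 0 := h1
    have h4 : -((x.2 : ℕ) : ℤ) + ((y.2 : ℕ) : ℤ) = 0 := h2
    exact Prod.ext (Fin.ext (by omega)) (Fin.ext (by omega))
  · have h1 := (habs A x.1 y.1).trans hA2
    have h2 := (habs B x.2 y.2).trans hB2
    have h3 : ((-((x.1 : ℕ) : ℤ) + ((y.1 : ℕ) : ℤ) : ℤ) : ℝ) ^ 2 / ρ ≤ n := by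
      rw [div_le_iff₀ hρ]
      exact h1
    have h4 : ρ * ((-((x.2 : ℕ) : ℤ) + ((y.2 : ℕ) : ℤ) : ℤ) : ℝ) ^ 2 ≤ n := by
      rw [le_div_iff₀ hρ] at h2
      linarith
    show ((-((x.1 : ℕ) : ℤ) + ((y.1 : ℕ) : ℤ) : ℤ) : ℝ) ^ 2 / ρ +
      ρ * ((-((x.2 : ℕ) : ℤ) + ((y.2 : ℕ) : ℤ) : ℤ) : ℝ) ^ 2 ≤ 2 * n
    linarith

theorem pf_MIN (hFLS : T_FLS) : T_MIN := by
  intro ρ n L hρ hn hL
  have hidx : L.index = n := (hFLS n L hn).1.1 hL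
  obtain ⟨v0, hv0, hv0', hv02⟩ := exists_short hρ hn hidx
  obtain ⟨v, hv, hmin⟩ := Set.exists_min_image {v : ℤ × ℤ | (v ∈ L ∧ v ≠ 0) ∧ nr ρ v ≤ nr ρ v0}
    (nr ρ) ((finite_nr hρ (nr ρ v0)).subset fun v hv => hv.2) ⟨v0, ⟨hv0, hv0'⟩, le_rfl⟩
  have hall : ∀ u ∈ L, u ≠ 0 → nr ρ v ≤ nr ρ u := by
    intro u hu hu0
    rcases le_or_gt (nr ρ u) (nr ρ v0) with h | h
    · exact hmin u ⟨⟨hu, hu0⟩, h⟩
    · exact hv.2.trans h.le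
  have hmn : mn ρ L = nr ρ v := by
    unfold mn
    apply IsLeast.csInf_eq
    refine ⟨⟨v, hv.1, rfl⟩, ?_⟩
    rintro _ ⟨u, hu, rfl⟩
    exact hall u hu.1 hu.2
  refine ⟨v, hv.1.1, hv.1.2, hmn.symm, fun u hu hu0 => hmn.trans_le (hall u hu hu0), ?_⟩
  rw [hmn]
  exact hv.2.trans hv02

end Pool.Agent.H48.FM.MIN
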