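import Pool.Agent.H89.FM.Targets2

set_option autoImplicit false

open Pool.Agent.H31.CN Pool.Agent.H89.FM

namespace Pool.Agent.H48.FM.RBP

theorem Rn_prime {p : ℕ} (hp : p.Prime) (L : AddSubgroup (ℤ × ℤ)) (Q : QF) :
    (Dv p L Q → |Rn p L Q| = (p : ℝ) - 1) ∧ (¬ Dv p L Q → |Rn p L Q| = 1) := by
  classical
  have h1 : (1 : ℝ) ≤ p := by exact_mod_cast hp.one_lt.le
  unfold Rn
  rw [hp.primeFactors, Finset.prod_singleton]
  constructor
  · intro h
    rw [if_pos h, abs_of_nonneg (by linarith)]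
  · intro h
    rw [if_neg h]
    norm_num

theorem roots_le {p : ℕ} (hp : p.Prime) {a b c : ℤ} (ha : ¬ (p : ℤ) ∣ a) :
    ((Finset.range p).filter fun x : ℕ =>
      (p : ℤ) ∣ a * (x : ℤ) ^ 2 + b * (x : ℤ) * 1 + c * 1 ^ 2).card ≤ 2 := by
  have hpz : Prime (p : ℤ) := Nat.prime_iff_prime_int.1 hp
  by_contra hcon
  push Not at hcon
  obtain ⟨x, hx, y, hy, z, hz, hxy, hxz, hyz⟩ := Finset.two_lt_card.1 hcon
  rw [Finset.mem_filter, Finset.mem_range] at hx hy hz
  have hne : ∀ x y : ℕ, x < p → y < p → x ≠ y → ¬ (p : ℤ) ∣ (x : ℤ) - y := by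
    intro x y hx hy hxy h
    have h4 : (x : ℤ) - y = 0 := by
      apply Int.eq_zero_of_abs_lt_dvd h
      rw [abs_lt]
      constructor <;> omega
    omega
  have key : ∀ x y : ℕ, x < p → y < p → x ≠ y →
      (p : ℤ) ∣ a * (x : ℤ) ^ 2 + b * (x : ℤ) * 1 + c * 1 ^ 2 →
      (p : ℤ) ∣ a * (y : ℤ) ^ 2 + b * (y : ℤ) * 1 + c * 1 ^ 2 →
      (p : ℤ) ∣ a * (x + y) + b := by
    intro x y hx hy hxy h1 h2
    have h3 := dvd_sub h1 h2
    have e : a * (x : ℤ) ^ 2 + b * (x : ℤ) * 1 + c * 1 ^ 2 -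
        (a * (y : ℤ) ^ 2 + b * (y : ℤ) * 1 + c * 1 ^ 2) =
        ((x : ℤ) - y) * (a * (x + y) + b) := by ring
    rw [e] at h3
    exact (hpz.dvd_or_dvd h3).resolve_left (hne x y hx hy hxy)
  have h1 := key x y hx.1 hy.1 hxy hx.2 hy.2
  have h2 := key x z hx.1 hz.1 hxz hx.2 hz.2
  have h3 := dvd_sub h1 h2
  have e : a * ((x : ℤ) + y) + b - (a * (x + z) + b) = a * ((y : ℤ) - z) := by ring
  rw [e] at h3
  rcases hpz.dvd_or_dvd h3 with h4 | h4
  · exact ha h4
  · exact hne y z hy.1 hz.1 hyz h4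

theorem pf_RBP (hLSP : T_LSP) (hDVP : T_DVP) : T_RBP := by
  classical
  intro p Q hp
  obtain ⟨hcard, h10, hx1, hall⟩ := hLSP p hp
  have hp2 : (2 : ℝ) ≤ p := by exact_mod_cast hp.two_le
  by_cases hpa : (p : ℤ) ∣ Q.1
  · rw [if_pos hpa]
    have h1 : ∀ L ∈ Ls p, |Rn p L Q| ≤ (p : ℝ) := by
      intro L _
      by_cases hd : Dv p L Q
      · rw [(Rn_prime hp L Q).1 hd]
        linarith
      · rw [(Rn_prime hp L Q).2 hd]
        linarith
    have h2 := Finset.sum_le_card_nsmul (Ls p) (fun L => |Rn p L Q|) (p : ℝ) h1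
    rw [hcard, nsmul_eq_mul] at h2
    refine h2.trans ?_
    push_cast
    nlinarith
  · rw [if_neg hpa]
    have h1 : ∀ L ∈ Ls p, |Rn p L Q| = 1 + if Dv p L Q then (p : ℝ) - 2 else 0 := by
      intro L _
      by_cases hd : Dv p L Q
      · rw [(Rn_prime hp L Q).1 hd, if_pos hd]
        ring
      · rw [(Rn_prime hp L Q).2 hd, if_neg hd]
        ring
    rw [Finset.sum_congr rfl h1, Finset.sum_add_distrib, Finset.sum_const, hcard,
      ← Finset.sum_filter, Finset.sum_const, nsmul_eq_mul, nsmul_eq_mul, mul_one]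
    have hN : ((Ls p).filter fun L => Dv p L Q).card ≤ 2 := by
      have hsub : ((Ls p).filter fun L => Dv p L Q) ⊆
          ((Finset.range p).filter fun x : ℕ =>
            (p : ℤ) ∣ Q.1 * (x : ℤ) ^ 2 + Q.2.1 * (x : ℤ) * 1 + Q.2.2 * 1 ^ 2).image
            fun x : ℕ => Lw p ((x : ℤ), 1) := by
        intro L hL
        rw [Finset.mem_filter] at hL
        rcases hall L hL.1 with h | ⟨x, hx, h⟩
        · exfalso
          have h2 := hL.2
          rw [h, hDVP p p (1, 0) Q hp.one_lt.le hp dvd_rfl (by simp)] at h2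
          apply hpa
          simpa [val] using h2
        · rw [Finset.mem_image]
          refine ⟨x, ?_, h.symm⟩
          rw [Finset.mem_filter]
          have h2 := hL.2
          rw [h, hDVP p p _ Q hp.one_lt.le hp dvd_rfl (by simp)] at h2
          exact ⟨Finset.mem_range.2 hx, h2⟩
      exact (Finset.card_le_card hsub).trans (Finset.card_image_le.trans (roots_le hp hpa))
    have hN' : (((Ls p).filter fun L => Dv p L Q).card : ℝ) ≤ 2 := by exact_mod_cast hN
    push_cast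
    nlinarith

end Pool.Agent.H48.FM.RBP
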